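import Mathlib

namespace Pool.Agent.Results.MP_eb524a_co.LowerHalf

open Finset

/-- The endpoints of the partition `I_t` of `[0,1]` obtained from the cut points
`c 0, …, c (t-2)`: the numbers `0`, `1` and these `t - 1` cut points. -/
noncomputable def endpts (c : ℕ → ℝ) (t : ℕ) : Finset ℝ :=
  insert 0 (insert 1 ((range (t - 1)).image c))

/-- `[a, b]` is an interval of the partition of `[0,1]` whose set of endpoints is `P`. -/
def IsInterval (P : Finset ℝ) (a b : ℝ) : Prop :=
  a ∈ P ∧ b ∈ P ∧ a < b ∧ ∀ x ∈ P, ¬ (a < x ∧ x < b)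

/-- A strategy of length `n`, given by its successive cut points: `n - 1` different points
of `(0,1)`. Its partitions are the ones with endpoint sets `endpts c t`, `t = 1, …, n`. -/
def IsStrategy (n : ℕ) (c : ℕ → ℝ) : Prop :=
  (∀ i < n - 1, 0 < c i ∧ c i < 1) ∧ ∀ i < n - 1, ∀ j < n - 1, c i = c j → i = j

/-- The set of all ratios of lengths of two intervals of one of the partitions
`I_1, …, I_n`. -/
def ratios (n : ℕ) (c : ℕ → ℝ) : Set ℝ :=
  {r | ∃ t, 1 ≤ t ∧ t ≤ n ∧ ∃ a b a' b', IsInterval (endpts c t) a b ∧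
    IsInterval (endpts c t) a' b' ∧ r = (b - a) / (b' - a')}

/-- The discrepancy `disc(S)` of the strategy. -/
noncomputable def discS (n : ℕ) (c : ℕ → ℝ) : ℝ := sSup (ratios n c)

/-- `disc(n)`, the infimum of `disc(S)` over all strategies of length `n`. -/
noncomputable def disc (n : ℕ) : ℝ := sInf {D | ∃ c, IsStrategy n c ∧ D = discS n c}

/-! ### proofs -/

lemma exists_next (P : Finset ℝ) (h1 : (1:ℝ) ∈ P) (a : ℝ) (ha : a ∈ P) (ha1 : a < 1) :
    ∃ b, IsInterval P a b := by
  have hne : (P.filter (fun x => a < x)).Nonempty := ⟨1, by simp [h1, ha1]⟩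
  refine ⟨(P.filter (fun x => a < x)).min' hne, ha, ?_, ?_, ?_⟩
  · exact (mem_filter.1 (min'_mem _ hne)).1
  · exact (mem_filter.1 (min'_mem _ hne)).2
  · intro x hx ⟨h2, h3⟩
    have := min'_le (P.filter (fun x => a < x)) x (by simp [hx, h2])
    linarith

lemma exists_around (P : Finset ℝ) (h0 : (0:ℝ) ∈ P) (h1 : (1:ℝ) ∈ P) (c : ℝ) (hc : 0 < c)
    (hc1 : c < 1) (hcP : c ∉ P) : ∃ a b, IsInterval P a b ∧ a < c ∧ c < b := by
  have hne : (P.filter (fun x => x < c)).Nonempty := ⟨0, by simp [h0, hc]⟩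
  set a := (P.filter (fun x => x < c)).max' hne with hadef
  have ha := max'_mem _ hne
  rw [← hadef] at ha
  obtain ⟨haP, hac⟩ := mem_filter.1 ha
  obtain ⟨b, hb⟩ := exists_next P h1 a haP (by linarith)
  refine ⟨a, b, hb, hac, ?_⟩
  by_contra hcb
  have hbc : b < c := by
    rcases lt_or_eq_of_le (not_lt.1 hcb) with h | h
    · exact h
    · exact absurd (h ▸ hb.2.1) hcP
  have := le_max' (P.filter (fun x => x < c)) b (by simp [hb.2.1, hbc])
  rw [← hadef] at this
  linarith [hb.2.2.1]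

/-- left endpoints of long intervals -/
noncomputable def longs (P : Finset ℝ) (w : ℝ) : Finset ℝ :=
  P.filter (fun a => a < 1 ∧ ∀ x ∈ P, a < x → w < x - a)

lemma longs_insert (P : Finset ℝ) (h0 : (0:ℝ) ∈ P) (h1 : (1:ℝ) ∈ P) (c : ℝ) (hc : 0 < c)
    (hc1 : c < 1) (hcP : c ∉ P) (w : ℝ) :
    (longs P w).card ≤ (longs (insert c P) w).card + 1 := by
  obtain ⟨a0, b0, hab, hac, hcb⟩ := exists_around P h0 h1 c hc hc1 hcP
  have hsub : longs P w ⊆ insert a0 (longs (insert c P) w) := by
    intro a ha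
    simp only [longs, mem_filter, mem_insert] at ha ⊢
    by_cases hEq : a = a0
    · left; exact hEq
    · right
      refine ⟨Or.inr ha.1, ha.2.1, ?_⟩
      intro x hx hax
      rcases hx with rfl | hx
      · -- `a < c`, hence `a < a0`
        have haa : a < a0 := by
          rcases lt_trichotomy a a0 with h | h | h
          · exact h
          · exact absurd h hEq
          · exact absurd ⟨h, by linarith⟩ (hab.2.2.2 a ha.1)
        have := ha.2.2 a0 hab.1 haa
        linarith
      · exact ha.2.2 x hx hax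
  calc (longs P w).card ≤ (insert a0 (longs (insert c P) w)).card := card_le_card hsub
    _ ≤ _ := card_insert_le _ _

lemma endpts_succ (c : ℕ → ℝ) (t : ℕ) (ht : 1 ≤ t) :
    endpts c (t + 1) = insert (c (t - 1)) (endpts c t) := by
  obtain ⟨s, rfl⟩ : ∃ s, t = s + 1 := ⟨t - 1, by omega⟩
  simp only [endpts, Nat.add_sub_cancel]
  rw [range_add_one, image_insert]
  ext x
  simp only [mem_insert]
  tauto

lemma mem_endpts_zero (c : ℕ → ℝ) (t : ℕ) : (0:ℝ) ∈ endpts c t := by simp [endpts]
lemma mem_endpts_one (c : ℕ → ℝ) (t : ℕ) : (1:ℝ) ∈ endpts c t := by simp [endpts]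

lemma not_mem_endpts {n : ℕ} {c : ℕ → ℝ} (hS : IsStrategy n c) {t : ℕ} (ht : 1 ≤ t)
    (htn : t + 1 ≤ n) : c (t - 1) ∉ endpts c t := by
  simp only [endpts, mem_insert, mem_image, mem_range, not_or, not_exists, not_and]
  have h := hS.1 (t - 1) (by omega)
  refine ⟨by linarith [h.1], by linarith [h.2], ?_⟩
  intro i hi hEq
  have := hS.2 i (by omega) (t - 1) (by omega) hEq
  omega

lemma longs_card_mono {n : ℕ} {c : ℕ → ℝ} (hS : IsStrategy n c) (w : ℝ) (t : ℕ) (ht : 1 ≤ t)
    (k : ℕ) (hk : t + k ≤ n) :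
    (longs (endpts c t) w).card ≤ (longs (endpts c (t + k)) w).card + k := by
  induction k with
  | zero => simp
  | succ k ih =>
    have h1 := ih (by omega)
    have hm := hS.1 (t + k - 1) (by omega)
    have h2 := longs_insert (endpts c (t + k)) (mem_endpts_zero _ _) (mem_endpts_one _ _)
      (c (t + k - 1)) hm.1 hm.2 (not_mem_endpts hS (by omega) (by omega)) w
    rw [← endpts_succ c (t + k) (by omega)] at h2
    have : t + (k + 1) = t + k + 1 := by ring
    rw [this]
    omega

/-- If all intervals are long there are `t` long ones. -/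
lemma longs_card_eq {n : ℕ} {c : ℕ → ℝ} (hS : IsStrategy n c) (w : ℝ) (t : ℕ) (ht : 1 ≤ t)
    (htn : t ≤ n) (hall : ∀ a b, IsInterval (endpts c t) a b → w < b - a) :
    t ≤ (longs (endpts c t) w).card := by
  have hsub : insert 0 ((range (t - 1)).image c) ⊆ longs (endpts c t) w := by
    intro a ha
    have haP : a ∈ endpts c t := by
      simp only [endpts, mem_insert] at ha ⊢
      tauto
    have ha1 : a < 1 := by
      rcases mem_insert.1 ha with rfl | h
      · norm_num
      · obtain ⟨i, hi, rfl⟩ := mem_image.1 h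
        exact (hS.1 i (by have := mem_range.1 hi; omega)).2
    simp only [longs, mem_filter]
    refine ⟨haP, ha1, ?_⟩
    intro x hx hax
    obtain ⟨b, hb⟩ := exists_next _ (mem_endpts_one c t) a haP ha1
    have hw := hall a b hb
    have : b ≤ x := by
      by_contra hbx
      exact hb.2.2.2 x hx ⟨hax, not_le.1 hbx⟩
    linarith
  have hcard : (insert 0 ((range (t - 1)).image c)).card = t := by
    rw [card_insert_of_notMem, card_image_of_injOn, card_range]
    · omega
    · intro i hi j hj hij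
      have hi' := mem_range.1 (mem_coe.1 hi)
      have hj' := mem_range.1 (mem_coe.1 hj)
      exact hS.2 i (by omega) j (by omega) hij
    · simp only [mem_image, mem_range, not_exists, not_and]
      intro i hi h0
      have := (hS.1 i (by omega)).1
      linarith
  calc t = _ := hcard.symm
    _ ≤ _ := card_le_card hsub

lemma longs_card_zero (c : ℕ → ℝ) (w : ℝ) (t : ℕ)
    (hall : ∀ a b, IsInterval (endpts c t) a b → b - a ≤ w) :
    (longs (endpts c t) w).card = 0 := by
  rw [card_eq_zero]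
  by_contra hne
  obtain ⟨a, ha⟩ := nonempty_iff_ne_empty.2 hne
  simp only [longs, mem_filter] at ha
  obtain ⟨b, hb⟩ := exists_next _ (mem_endpts_one c t) a ha.1 ha.2.1
  have h1 := hall a b hb
  have h2 := ha.2.2 b hb.2.1 hb.2.2.1
  linarith

/-- a longest interval exists -/
lemma exists_longest (c : ℕ → ℝ) (t : ℕ) :
    ∃ M : ℝ, 0 < M ∧ (∀ a b, IsInterval (endpts c t) a b → b - a ≤ M) ∧
      ∃ a b, IsInterval (endpts c t) a b ∧ b - a = M := by
  classical
  set P := endpts c t with hP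
  let Q := (P ×ˢ P).filter (fun p => IsInterval P p.1 p.2)
  obtain ⟨b, hb⟩ := exists_next P (mem_endpts_one c t) 0 (mem_endpts_zero c t) (by norm_num)
  have hne : Q.Nonempty := ⟨(0, b), by
    simp only [Q, mem_filter, mem_product]
    exact ⟨⟨hb.1, hb.2.1⟩, hb⟩⟩
  obtain ⟨p, hp, hmax⟩ := exists_max_image Q (fun p => p.2 - p.1) hne
  simp only [Q, mem_filter, mem_product] at hp
  refine ⟨p.2 - p.1, by linarith [hp.2.2.2.1], ?_, p.1, p.2, hp.2, rfl⟩
  intro a b' hab
  exact hmax (a, b') (by simp only [Q, mem_filter, mem_product]; exact ⟨⟨hab.1, hab.2.1⟩, hab⟩)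

/-- the main bound for a strategy all of whose ratios are at most `D` -/
lemma main_bound {n : ℕ} (hn : 1 ≤ n) {c : ℕ → ℝ} (hS : IsStrategy n c) (D : ℝ)
    (hD : ∀ t, 1 ≤ t → t ≤ n → ∀ a b a' b', IsInterval (endpts c t) a b →
      IsInterval (endpts c t) a' b' → b - a ≤ D * (b' - a')) :
    1 ≤ D * (D / 2) ^ (n - (n / 2 + 1)) := by
  choose M hM0 hMle hMex using exists_longest c
  have hD1 : 1 ≤ D := by
    obtain ⟨a, b, hab, h⟩ := hMex n
    have := hD n hn le_rfl a b a b hab hab
    have h0 : 0 < b - a := by linarith [hab.2.2.1]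
    nlinarith
  have hstep : ∀ t, 1 ≤ t → t + 1 ≤ n → M (t + 1) ≤ D / 2 * M t := by
    intro t ht htn
    have hm := hS.1 (t - 1) (by omega)
    obtain ⟨a, b, hab, hac, hcb⟩ := exists_around (endpts c t) (mem_endpts_zero _ _)
      (mem_endpts_one _ _) (c (t - 1)) hm.1 hm.2 (not_mem_endpts hS ht htn)
    have hs := endpts_succ c t ht
    have hl : IsInterval (endpts c (t + 1)) a (c (t - 1)) := by
      rw [hs]
      refine ⟨mem_insert_of_mem hab.1, mem_insert_self _ _, hac, ?_⟩
      intro x hx ⟨h1, h2⟩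
      rcases mem_insert.1 hx with rfl | hx
      · linarith
      · exact hab.2.2.2 x hx ⟨h1, by linarith⟩
    have hr : IsInterval (endpts c (t + 1)) (c (t - 1)) b := by
      rw [hs]
      refine ⟨mem_insert_self _ _, mem_insert_of_mem hab.2.1, hcb, ?_⟩
      intro x hx ⟨h1, h2⟩
      rcases mem_insert.1 hx with rfl | hx
      · linarith
      · exact hab.2.2.2 x hx ⟨by linarith, h2⟩
    obtain ⟨a1, b1, hab1, h1⟩ := hMex (t + 1)
    have e1 := hD (t + 1) (by omega) htn a1 b1 _ _ hab1 hl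
    have e2 := hD (t + 1) (by omega) htn a1 b1 _ _ hab1 hr
    have e3 := hMle t a b hab
    nlinarith
  have hpow : ∀ k t, 1 ≤ t → t + k ≤ n → M (t + k) ≤ (D / 2) ^ k * M t := by
    intro k
    induction k with
    | zero => intro t _ _; simp
    | succ k ih =>
      intro t ht htn
      have h1 := ih t ht (by omega)
      have h2 := hstep (t + k) (by omega) (by omega)
      have h3 : t + (k + 1) = t + k + 1 := by ring
      rw [h3, pow_succ]
      calc M (t + k + 1) ≤ D / 2 * M (t + k) := h2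
        _ ≤ D / 2 * ((D / 2) ^ k * M t) := by
            apply mul_le_mul_of_nonneg_left h1; linarith
        _ = _ := by ring
  set t := n / 2 + 1 with htdef
  have ht1 : 1 ≤ t := by omega
  have htn : t ≤ n := by omega
  -- some interval of `I_t` is at most `M n`
  have hex : ∃ a b, IsInterval (endpts c t) a b ∧ b - a ≤ M n := by
    by_contra hcon
    push Not at hcon
    have h1 := longs_card_eq hS (M n) t ht1 htn hcon
    have h2 := longs_card_mono hS (M n) t ht1 (n - t) (by omega)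
    have h3 : t + (n - t) = n := by omega
    rw [h3] at h2
    have h4 := longs_card_zero c (M n) n (hMle n)
    omega
  obtain ⟨a, b, hab, hle⟩ := hex
  obtain ⟨a1, b1, hab1, h1⟩ := hMex t
  have h5 : M t ≤ D * M n := by
    have := hD t ht1 htn a1 b1 a b hab1 hab
    rw [h1] at this
    calc M t ≤ D * (b - a) := this
      _ ≤ D * M n := by apply mul_le_mul_of_nonneg_left hle; linarith
  have h6 := hpow (n - t) t ht1 (by omega)
  have h7 : t + (n - t) = n := by omega
  rw [h7] at h6
  have h8 : M t ≤ D * (D / 2) ^ (n - t) * M t := by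
    calc M t ≤ D * M n := h5
      _ ≤ D * ((D / 2) ^ (n - t) * M t) := by apply mul_le_mul_of_nonneg_left h6; linarith
      _ = _ := by ring
  have h9 := hM0 t
  by_contra hlt
  push Not at hlt
  nlinarith

lemma ratios_finite (n : ℕ) (c : ℕ → ℝ) : (ratios n c).Finite := by
  classical
  let F : Finset ℝ := (Finset.range (n + 1)).biUnion (fun t =>
    ((endpts c t ×ˢ endpts c t) ×ˢ (endpts c t ×ˢ endpts c t)).image
      (fun q => (q.1.2 - q.1.1) / (q.2.2 - q.2.1)))
  apply F.finite_toSet.subset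
  rintro r ⟨t, _, htn, a, b, a', b', h1, h2, rfl⟩
  simp only [F, coe_biUnion, Set.mem_iUnion, mem_coe, mem_range, mem_image, mem_product]
  exact ⟨t, by omega, ((a, b), (a', b')), ⟨⟨h1.1, h1.2.1⟩, h2.1, h2.2.1⟩, rfl⟩

lemma discS_bound {n : ℕ} (hn : 1 ≤ n) {c : ℕ → ℝ} (hS : IsStrategy n c) :
    (2:ℝ) ^ (1 - 1 / (⌈(n:ℝ) / 2⌉₊ : ℝ)) ≤ discS n c := by
  have hbdd := (ratios_finite n c).bddAbove
  have hD : ∀ t, 1 ≤ t → t ≤ n → ∀ a b a' b', IsInterval (endpts c t) a b →
      IsInterval (endpts c t) a' b' → b - a ≤ discS n c * (b' - a') := by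
    intro t ht htn a b a' b' h1 h2
    have h3 : (b - a) / (b' - a') ≤ discS n c :=
      le_csSup hbdd ⟨t, ht, htn, a, b, a', b', h1, h2, rfl⟩
    have h4 : 0 < b' - a' := by linarith [h2.2.2.1]
    rwa [div_le_iff₀ h4] at h3
  have hmain := main_bound hn hS (discS n c) hD
  set D := discS n c with hDdef
  -- the ceiling
  have hceil : ⌈(n:ℝ) / 2⌉₊ = n - n / 2 := by
    rw [Nat.ceil_eq_iff (by omega)]
    rcases Nat.even_or_odd' n with ⟨k, rfl | rfl⟩
    · have h1 : 2 * k - 2 * k / 2 = k := by omega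
      rw [h1]
      have h2 : 1 ≤ k := by omega
      have h3 : ((k - 1 : ℕ) : ℝ) = (k:ℝ) - 1 := by push_cast [h2]; ring
      push_cast [h3]
      constructor <;> linarith
    · have h1 : 2 * k + 1 - (2 * k + 1) / 2 = k + 1 := by omega
      rw [h1]
      push_cast
      constructor
      · have : ((k + 1 - 1 : ℕ) : ℝ) = k := by simp
        linarith
      · linarith
  rw [hceil]
  set h := n - n / 2 with hh
  have hh1 : 1 ≤ h := by omega
  have hexp : n - (n / 2 + 1) = h - 1 := by omega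
  rw [hexp] at hmain
  have hD0 : 0 < D := by
    obtain ⟨b, hb⟩ := exists_next _ (mem_endpts_one c 1) 0 (mem_endpts_zero c 1) (by norm_num)
    have := hD 1 le_rfl hn 0 b 0 b hb hb
    have h0 : 0 < b - 0 := by linarith [hb.2.2.1]
    nlinarith
  -- `2 ^ (h - 1) ≤ D ^ h`
  have hpow : (2:ℝ) ^ (h - 1) ≤ D ^ h := by
    have e1 : D ^ h = D * D ^ (h - 1) := by
      rw [← pow_succ']; congr 1; omega
    rw [e1]
    have e2 : D * (D / 2) ^ (h - 1) = D * D ^ (h - 1) / 2 ^ (h - 1) := by
      rw [div_pow]; ring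
    rw [e2] at hmain
    rw [le_div_iff₀ (by positivity)] at hmain
    linarith
  have hhR : (0:ℝ) < (h:ℝ) := by exact_mod_cast hh1
  have e3 : ((2:ℝ) ^ (1 - 1 / (h:ℝ))) ^ h = 2 ^ (h - 1) := by
    rw [← Real.rpow_natCast, ← Real.rpow_mul (by norm_num), ← Real.rpow_natCast]
    congr 1
    rw [Nat.cast_sub hh1]
    field_simp
    push_cast
    ring
  have e4 : ((2:ℝ) ^ (1 - 1 / (h:ℝ))) ^ h ≤ D ^ h := by rw [e3]; exact hpow
  exact le_of_pow_le_pow_left₀ (by omega) hD0.le e4

/-- **Theorem.** Every strategy of length `n` has discrepancy at least `2 ^ (1 - 1/⌈n/2⌉)`;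
hence `disc(n) ≥ 2 ^ (1 - 1/⌈n/2⌉)`. -/
theorem result (n : ℕ) (hn : 1 ≤ n) :
    (∀ c : ℕ → ℝ, IsStrategy n c → (2:ℝ) ^ (1 - 1 / (⌈(n:ℝ) / 2⌉₊ : ℝ)) ≤ discS n c) ∧
      (2:ℝ) ^ (1 - 1 / (⌈(n:ℝ) / 2⌉₊ : ℝ)) ≤ disc n := by
  refine ⟨fun c hS => discS_bound hn hS, ?_⟩
  apply le_csInf
  · refine ⟨_, fun i => 1 / ((i:ℝ) + 2), ⟨?_, ?_⟩, rfl⟩
    · intro i _
      constructor
      · positivity
      · rw [div_lt_one (by positivity)]
        have : (0:ℝ) ≤ i := Nat.cast_nonneg i
        linarith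
    · intro i _ j _ hij
      have h1 : (i:ℝ) + 2 ≠ 0 := by positivity
      have h2 : (j:ℝ) + 2 ≠ 0 := by positivity
      field_simp at hij
      have : (i:ℝ) = j := by linarith
      exact_mod_cast this
  · rintro D ⟨c, hS, rfl⟩
    exact discS_bound hn hS

end Pool.Agent.Results.MP_eb524a_co.LowerHalf
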