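import Pool.Agent.R681.BM.F

/-!
# The maximal ball partial sum operator with random signs
-/

namespace Pool.Agent.Results.MP_ee701d_an.RandomSigns

open MeasureTheory Real
open scoped ENNReal InnerProductSpace SchwartzMap FourierTransform

/-- The sign attached to the frequency `ξ` by the sign pattern `A`: it is constant on each shell
`l < ρ |ξ| ≤ l + 1` of width `1/ρ` (the origin belongs to the shell `l = 0`), equal to `-1` if
`l ∈ A` and to `1` otherwise. -/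
noncomputable def shellSign {n : ℕ} (ρ : ℝ) (A : Finset ℕ) (ξ : EuclideanSpace ℝ (Fin n)) : ℂ :=
  if ⌈ρ * ‖ξ‖⌉₊ - 1 ∈ A then -1 else 1

/-- The ball partial sum `S_R f_A (x) = ∫_{|ξ| ≤ R} ε_A(ξ) f^(ξ) e^{2πi x·ξ} dξ` of the function
`f_A` obtained from `f` by multiplying its Fourier transform by the signs of the pattern `A`. -/
noncomputable def ballSum {n : ℕ} (f : 𝓢(EuclideanSpace ℝ (Fin n), ℂ)) (ρ : ℝ) (A : Finset ℕ)
    (R : ℝ) (x : EuclideanSpace ℝ (Fin n)) : ℂ :=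
  ∫ ξ in Metric.closedBall (0 : EuclideanSpace ℝ (Fin n)) R,
    shellSign ρ A ξ * ((𝓕 f) ξ * Complex.exp (2 * π * Complex.I * ((⟪x, ξ⟫_ℝ : ℝ) : ℂ)))

/-- For every dimension `n ≥ 1` there is a constant `C` such that for every `ρ > 0`, every Schwartz
function `f` and every `N`, the average over the `2 ^ N` choices of signs on the first `N` shells of
width `1/ρ` of `∫_{|x| ≤ ρ} sup_{0 < R ≤ N/ρ} |S_R f_A(x)|² dx` is at most `C ‖f‖₂²`. -/
theorem result (n : ℕ) (hn : 1 ≤ n) : ∃ C : ℝ, ∀ ρ : ℝ, 0 < ρ →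
    ∀ (f : 𝓢(EuclideanSpace ℝ (Fin n), ℂ)) (N : ℕ),
      (∑ A ∈ (Finset.range N).powerset,
        ∫⁻ x in Metric.closedBall (0 : EuclideanSpace ℝ (Fin n)) ρ,
          ⨆ R ∈ Set.Ioc (0:ℝ) (N / ρ), ‖ballSum f ρ A R x‖ₑ ^ 2) / 2 ^ N ≤
      ENNReal.ofReal (C * ∫ x, ‖f x‖ ^ 2) := by
  have : Nonempty (Fin n) := ⟨⟨0, hn⟩⟩
  have hnt : Nontrivial (EuclideanSpace ℝ (Fin n)) := by infer_instance
  refine ⟨(Pool.Agent.R681.BM.CC n).toReal, fun ρ hρ f N => ?_⟩
  have h := Pool.Agent.R681.BM.scaled (fun ξ => (𝓕 f) ξ) (𝓕 f).continuous (𝓕 f).integrable hρ N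
  have hpl : ∫⁻ ξ, ‖(𝓕 f) ξ‖ₑ ^ 2 = ENNReal.ofReal (∫ x, ‖f x‖ ^ 2) := by
    rw [← SchwartzMap.integral_norm_sq_fourier f, ofReal_integral_eq_lintegral_ofReal]
    · refine lintegral_congr fun ξ => ?_
      rw [ENNReal.ofReal_pow (norm_nonneg _), ofReal_norm]
    · exact ((𝓕 f).memLp 2).integrable_norm_pow (by norm_num)
    · exact Filter.Eventually.of_forall fun ξ => by positivity
  rw [hpl] at h
  have hC : Pool.Agent.R681.BM.CC n = ENNReal.ofReal (Pool.Agent.R681.BM.CC n).toReal :=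
    (ENNReal.ofReal_toReal Pool.Agent.R681.BM.CC_ne_top).symm
  rw [ENNReal.ofReal_mul ENNReal.toReal_nonneg, ← hC]
  refine ENNReal.div_le_of_le_mul' ?_
  exact h

end Pool.Agent.Results.MP_ee701d_an.RandomSigns
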